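import Pool.Agent.H89.FC.Targets2
import Pool.Agent.H95.FC.Targets

/-!
# FM COMPLETE: the statements for the lattices of index `n`
-/

set_option autoImplicit false

open MeasureTheory Set Filter
open scoped Real

namespace Pool.Agent.H23.FC

open Pool.Agent.H89.FM Pool.Agent.H89.FC

theorem pf_EZAx (hEZA : Pool.Agent.H89.FC.T_EZAm) (hEZ0 : Pool.Agent.H89.FC.T_EZ0)
    (hFLS : T_FLS) : Pool.Agent.H95.FC.T_EZAx := by
  intro m n L x y hn hL hy
  have hL' : L ∈ Ls n := ((hFLS n L hn).1).2 hL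
  obtain ⟨h1, h2⟩ := hEZA m n L x y hn hL' hy
  exact ⟨h1, fun hm => hEZ0 m n L x y hm hn hL' hy, h2⟩

theorem pf_ROTx (hROT : Pool.Agent.H89.FC.T_ROTm) (hFLS : T_FLS) :
    Pool.Agent.H95.FC.T_ROTx := by
  intro m τ s n L x y hn hL hτ hτ' hy
  exact hROT m n L x y s τ hn (((hFLS n L hn).1).2 hL) hy hτ hτ'

end Pool.Agent.H23.FC
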