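import Pool.Agent.H89.FC.Targets2

/-!
# FM COMPLETE: for `m ≠ 0` the completed Epstein zeta function vanishes at `s = 0`
-/

set_option autoImplicit false

open MeasureTheory Set Filter
open scoped Real Topology

namespace Pool.Agent.H23.FC

open Pool.Agent.H89.FM Pool.Agent.H89.FC

/-! ### The kernel at `s = 0` -/

theorem pow_exp_le (k : ℕ) {x : ℝ} (hx : 0 ≤ x) :
    (1 + x) ^ k * Real.exp (-(2 * π * x)) ≤ (k.factorial * Real.exp 1) * Real.exp (-x) := by
  have h1 : (1 + x) ^ k / k.factorial ≤ Real.exp (1 + x) :=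
    Real.pow_div_factorial_le_exp (1 + x) (by linarith) k
  have hk : (0 : ℝ) < k.factorial := by exact_mod_cast k.factorial_pos
  have h2 : (1 + x) ^ k ≤ k.factorial * Real.exp (1 + x) := by
    rw [div_le_iff₀ hk] at h1
    linarith
  have h3 : (1 + x) ^ k * Real.exp (-(2 * π * x)) ≤
      k.factorial * Real.exp (1 + x) * Real.exp (-(2 * π * x)) :=
    mul_le_mul_of_nonneg_right h2 (Real.exp_pos _).le
  refine h3.trans ?_
  have h4 : Real.exp (1 + x) * Real.exp (-(2 * π * x)) ≤ Real.exp 1 * Real.exp (-x) := by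
    rw [← Real.exp_add, ← Real.exp_add]
    refine Real.exp_le_exp.2 ?_
    nlinarith [Real.pi_gt_three]
  have h5 := mul_le_mul_of_nonneg_left h4 hk.le
  linarith

/-- the primitive of the integrand of the kernel at `s = 0` -/
noncomputable def Ak (M : ℕ) (r : ℝ) (u : ℂ) : ℂ :=
  ((1 + u) * ((M + 1) - 2 * π * (u * r)) - u) * (u * r) ^ M * Complex.exp (-(2 * π * (u * r)))

theorem Ak_deriv (M : ℕ) (r : ℝ) {z : ℂ} (hz : z ≠ 0) :
    HasDerivAt (Ak M r) (phm M (z * r) * (1 + z) / z) z := by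
  have hA : HasDerivAt (fun u : ℂ => u * (r : ℂ)) (r : ℂ) z := by
    simpa using (hasDerivAt_id z).mul_const (r : ℂ)
  have h1 : HasDerivAt (fun u : ℂ => (1 + u) * (((M : ℂ) + 1) - 2 * π * (u * r)) - u)
      (1 * (((M : ℂ) + 1) - 2 * π * (z * r)) + (1 + z) * (-(2 * π * r)) - 1) z := by
    have h2 : HasDerivAt (fun u : ℂ => (((M : ℂ) + 1) - 2 * π * (u * r))) (-(2 * π * r)) z :=
      (hA.const_mul (2 * (π : ℂ))).const_sub _
    exact (((hasDerivAt_id z).const_add 1).mul h2).sub (hasDerivAt_id z)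
  have h3 : HasDerivAt (fun u : ℂ => (u * (r : ℂ)) ^ M) ((M : ℂ) * (z * r) ^ M / z) z := by
    have h4 := hA.pow M
    have h5 : (M : ℂ) * (z * r) ^ (M - 1) * r = (M : ℂ) * (z * r) ^ M / z := by
      rcases M with _ | M
      · simp
      · rw [Nat.add_sub_cancel, pow_succ]
        field_simp
    rw [← h5]
    exact h4
  have h6 : HasDerivAt (fun u : ℂ => Complex.exp (-(2 * π * (u * r))))
      (Complex.exp (-(2 * π * (z * r))) * (-(2 * π * r))) z :=
    ((hA.const_mul (2 * (π : ℂ))).neg).cexp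
  have h7 := (h1.mul h3).mul h6
  have h8 : phm M (z * r) * (1 + z) / z =
      ((1 * (((M : ℂ) + 1) - 2 * π * (z * r)) + (1 + z) * (-(2 * π * r)) - 1) * (z * r) ^ M +
        ((1 + z) * (((M : ℂ) + 1) - 2 * π * (z * r)) - z) * ((M : ℂ) * (z * r) ^ M / z)) *
        Complex.exp (-(2 * π * (z * r))) +
      ((1 + z) * (((M : ℂ) + 1) - 2 * π * (z * r)) - z) * (z * r) ^ M *
        (Complex.exp (-(2 * π * (z * r))) * (-(2 * π * r))) := by
    unfold phm
    field_simp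
    ring
  rw [h8]
  exact h7

theorem norm_expr (x : ℝ) : ‖Complex.exp (-(2 * π * (x : ℂ)))‖ = Real.exp (-(2 * π * x)) := by
  rw [Complex.norm_exp]
  congr 1
  have h : (-(2 * π * (x : ℂ))) = ((-(2 * π * x) : ℝ) : ℂ) := by push_cast; ring
  rw [h, Complex.ofReal_re]

theorem norm_phm_le (M : ℕ) {x : ℝ} (hx : 0 ≤ x) :
    ‖phm M (x : ℂ)‖ ≤ ((M + 7) ^ 2 + M + 13) * (((M + 2).factorial : ℝ) * Real.exp 1) *
      Real.exp (-x) := by
  have h1 : ‖phm M (x : ℂ)‖ ≤ (((M : ℝ) + 7) ^ 2 + M + 13) * (1 + x) ^ 2 * (1 + x) ^ M *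
      Real.exp (-(2 * π * x)) := by
    unfold phm
    rw [norm_mul, norm_mul, norm_expr, norm_pow, Complex.norm_real, Real.norm_eq_abs,
      abs_of_nonneg hx]
    have hp1 := Real.pi_gt_three
    have hp2 := Real.pi_lt_d2
    have h2 : ‖((M : ℂ) - 2 * π * x) ^ 2 + M - 4 * π * x‖ ≤
        (((M : ℝ) + 7) ^ 2 + M + 13) * (1 + x) ^ 2 := by
      have h3 : ((M : ℂ) - 2 * π * x) ^ 2 + M - 4 * π * x =
          (((M - 2 * π * x) ^ 2 + M - 4 * π * x : ℝ) : ℂ) := by push_cast; ring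
      rw [h3, Complex.norm_real, Real.norm_eq_abs]
      have hM : (0 : ℝ) ≤ M := Nat.cast_nonneg M
      have h4 : |(M : ℝ) - 2 * π * x| ≤ (M + 7) * (1 + x) := by
        rw [abs_le]
        constructor <;> nlinarith [mul_nonneg hM hx, mul_nonneg hx (sub_nonneg.2 hp2.le)]
      have h5 : ((M : ℝ) - 2 * π * x) ^ 2 ≤ ((M + 7) * (1 + x)) ^ 2 :=
        sq_le_sq' (by linarith [(abs_le.1 h4).1]) (abs_le.1 h4).2
      have h6 : (1 : ℝ) ≤ (1 + x) ^ 2 := by nlinarith
      have h7 : x ≤ (1 + x) ^ 2 := by nlinarith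
      have h8 : (M : ℝ) ≤ M * (1 + x) ^ 2 := by nlinarith
      have h9 : 4 * π * x ≤ 13 * (1 + x) ^ 2 := by nlinarith
      rw [abs_le]
      constructor
      · nlinarith [sq_nonneg ((M : ℝ) - 2 * π * x), sq_nonneg (((M : ℝ) + 7) * (1 + x))]
      · nlinarith [mul_nonneg (Real.pi_pos.le) hx]
    have h10 : x ^ M ≤ (1 + x) ^ M := pow_le_pow_left₀ hx (by linarith) M
    exact mul_le_mul_of_nonneg_right (mul_le_mul h2 h10 (by positivity) (by positivity))
      (Real.exp_pos _).le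
  refine h1.trans ?_
  have h11 := pow_exp_le (M + 2) hx
  have h12 : (((M : ℝ) + 7) ^ 2 + M + 13) * (1 + x) ^ 2 * (1 + x) ^ M * Real.exp (-(2 * π * x)) =
      (((M : ℝ) + 7) ^ 2 + M + 13) * ((1 + x) ^ (M + 2) * Real.exp (-(2 * π * x))) := by
    ring
  rw [h12]
  have h13 := mul_le_mul_of_nonneg_left h11
    (by positivity : (0 : ℝ) ≤ ((M : ℝ) + 7) ^ 2 + M + 13)
  exact h13.trans (le_of_eq (by ring))

theorem norm_Ak_le (M : ℕ) {r : ℝ} (hr : 0 < r) {u : ℝ} (hu : 0 ≤ u) :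
    ‖Ak M r (u : ℂ)‖ ≤ (1 + r⁻¹) * (M + 9) * (((M + 2).factorial : ℝ) * Real.exp 1) *
      Real.exp (-(u * r)) := by
  have hx : 0 ≤ u * r := mul_nonneg hu hr.le
  have hcast : ((u : ℂ) * (r : ℂ)) = ((u * r : ℝ) : ℂ) := by push_cast; ring
  have hM : (0 : ℝ) ≤ M := Nat.cast_nonneg M
  have h1 : ‖Ak M r (u : ℂ)‖ ≤ ((1 + r⁻¹) * (M + 9) * (1 + u * r) ^ 2) * (1 + u * r) ^ M *
      Real.exp (-(2 * π * (u * r))) := by
    unfold Ak
    rw [hcast, norm_mul, norm_mul, norm_expr, norm_pow, Complex.norm_real, Real.norm_eq_abs,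
      abs_of_nonneg hx]
    have hp1 := Real.pi_gt_three
    have hp2 := Real.pi_lt_d2
    have h2 : ‖(1 + (u : ℂ)) * ((M + 1) - 2 * π * ((u * r : ℝ) : ℂ)) - u‖ ≤
        (1 + r⁻¹) * (M + 9) * (1 + u * r) ^ 2 := by
      have h3 : (1 + (u : ℂ)) * ((M + 1) - 2 * π * ((u * r : ℝ) : ℂ)) - u =
          (((1 + u) * ((M + 1) - 2 * π * (u * r)) - u : ℝ) : ℂ) := by push_cast; ring
      rw [h3, Complex.norm_real, Real.norm_eq_abs]
      have h4 : 1 + u ≤ (1 + r⁻¹) * (1 + u * r) := by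
        have h5 : (1 + r⁻¹) * (1 + u * r) = 1 + u + (r⁻¹ + u * r) + u * (r⁻¹ * r - 1) := by ring
        rw [h5, inv_mul_cancel₀ hr.ne']
        have : 0 < r⁻¹ := inv_pos.2 hr
        linarith
      have h6 : |(1 + u) * ((M + 1) - 2 * π * (u * r)) - u| ≤ (1 + u) * ((M + 9) * (1 + u * r)) := by
        have h7 : |((M : ℝ) + 1) - 2 * π * (u * r)| ≤ (M + 8) * (1 + u * r) := by
          rw [abs_le]
          constructor <;> nlinarith [mul_nonneg hM hx, mul_nonneg hx (sub_nonneg.2 hp2.le)]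
        have h8 : |(1 + u) * ((M + 1) - 2 * π * (u * r)) - u| ≤
            (1 + u) * |((M : ℝ) + 1) - 2 * π * (u * r)| + u := by
          refine (abs_sub _ _).trans ?_
          rw [abs_mul, abs_of_nonneg (by linarith : 0 ≤ 1 + u), abs_of_nonneg hu]
        nlinarith [mul_le_mul_of_nonneg_left h7 (by linarith : 0 ≤ 1 + u), mul_nonneg hu hx]
      refine h6.trans ?_
      have h9 := mul_le_mul_of_nonneg_right h4
        (by positivity : 0 ≤ ((M : ℝ) + 9) * (1 + u * r))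
      refine h9.trans (le_of_eq (by ring))
    have h10 : (u * r) ^ M ≤ (1 + u * r) ^ M := pow_le_pow_left₀ hx (by linarith) M
    exact mul_le_mul_of_nonneg_right (mul_le_mul h2 h10 (by positivity) (by positivity))
      (Real.exp_pos _).le
  refine h1.trans ?_
  have h11 := pow_exp_le (M + 2) hx
  have h12 : ((1 + r⁻¹) * (M + 9) * (1 + u * r) ^ 2) * (1 + u * r) ^ M *
      Real.exp (-(2 * π * (u * r))) =
      ((1 + r⁻¹) * (M + 9)) * ((1 + u * r) ^ (M + 2) * Real.exp (-(2 * π * (u * r)))) := by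
    ring
  rw [h12]
  have h13 := mul_le_mul_of_nonneg_left h11
    (by positivity : (0 : ℝ) ≤ (1 + r⁻¹) * ((M : ℝ) + 9))
  exact h13.trans (le_of_eq (by ring))

theorem Kmc_zero (M : ℕ) {r : ℝ} (hr : 0 < r) :
    Kmc M 1 0 (r : ℂ) =
      -((2 * M + 1 - 4 * π * r) * (r : ℂ) ^ M * Complex.exp (-(2 * π * (r : ℂ)))) := by
  have h0 : ∀ u ∈ Ioi (1 : ℝ), Kmi M 1 0 (r : ℂ) u = phm M ((u : ℂ) * r) * (1 + u) / u := by
    intro u hu
    have hu0 : (u : ℂ) ≠ 0 := by
      have h := lt_trans one_pos (mem_Ioi.1 hu)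
      exact_mod_cast h.ne'
    unfold Kmi
    simp only [one_mul, inv_one, Complex.cpow_zero, mul_one, sub_zero, Complex.cpow_one]
    ring
  unfold Kmc
  rw [setIntegral_congr_fun measurableSet_Ioi h0]
  have hd : ∀ u ∈ Ici (1 : ℝ), HasDerivAt (fun u : ℝ => Ak M r (u : ℂ))
      (phm M ((u : ℂ) * r) * (1 + u) / u) u := by
    intro u hu
    have hu0 : (u : ℂ) ≠ 0 := by
      have h := lt_of_lt_of_le one_pos (mem_Ici.1 hu)
      exact_mod_cast h.ne'
    exact (Ak_deriv M r hu0).comp_ofReal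
  have hint : IntegrableOn (fun u : ℝ => phm M ((u : ℂ) * r) * (1 + u) / u) (Ioi 1) := by
    have hg : IntegrableOn (fun u : ℝ => 2 * (((M + 7) ^ 2 + M + 13) *
        (((M + 2).factorial : ℝ) * Real.exp 1)) * Real.exp (-r * u)) (Ioi 1) :=
      (exp_neg_integrableOn_Ioi 1 hr).const_mul _
    refine Integrable.mono' hg ?_ ?_
    · have hc : ContinuousOn (fun u : ℝ => phm M ((u : ℂ) * r) * (1 + u) / u) (Ioi 1) := by
        refine ContinuousOn.div ?_ Complex.continuous_ofReal.continuousOn ?_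
        · unfold phm
          fun_prop
        · intro u hu
          have h := lt_trans one_pos (mem_Ioi.1 hu)
          exact_mod_cast h.ne'
      exact hc.aestronglyMeasurable measurableSet_Ioi
    · refine (ae_restrict_iff' measurableSet_Ioi).2 (ae_of_all _ fun u hu => ?_)
      have hu1 : (1 : ℝ) < u := hu
      have hx : 0 ≤ u * r := mul_nonneg (by linarith) hr.le
      have h1 := norm_phm_le M hx
      have hcast : ((u : ℂ) * (r : ℂ)) = ((u * r : ℝ) : ℂ) := by push_cast; ring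
      have h2 : ‖(1 + (u : ℂ)) / u‖ ≤ 2 := by
        have h3 : (1 + (u : ℂ)) / u = (((1 + u) / u : ℝ) : ℂ) := by push_cast; ring
        rw [h3, Complex.norm_real, Real.norm_eq_abs, abs_of_nonneg (by positivity),
          div_le_iff₀ (by linarith)]
        linarith
      rw [mul_div_assoc, norm_mul, hcast]
      have h4 : ‖phm M ((u * r : ℝ) : ℂ)‖ * ‖(1 + (u : ℂ)) / u‖ ≤
          (((M + 7) ^ 2 + M + 13) * (((M + 2).factorial : ℝ) * Real.exp 1) *
            Real.exp (-(u * r))) * 2 := mul_le_mul h1 h2 (norm_nonneg _) (by positivity)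
      refine h4.trans (le_of_eq ?_)
      rw [show -r * u = -(u * r) by ring]
      ring
  have hlim : Tendsto (fun u : ℝ => Ak M r (u : ℂ)) atTop (𝓝 0) := by
    have h1 : Tendsto (fun u : ℝ => (1 + r⁻¹) * (M + 9) * (((M + 2).factorial : ℝ) * Real.exp 1) *
        Real.exp (-(u * r))) atTop (𝓝 ((1 + r⁻¹) * (M + 9) *
          (((M + 2).factorial : ℝ) * Real.exp 1) * 0)) := by
      refine Tendsto.const_mul _ ?_
      exact Real.tendsto_exp_neg_atTop_nhds_zero.comp (tendsto_id.atTop_mul_const hr)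
    rw [mul_zero] at h1
    refine squeeze_zero_norm' ?_ h1
    filter_upwards [eventually_ge_atTop (0 : ℝ)] with u hu
    exact norm_Ak_le M hr hu
  rw [integral_Ioi_of_hasDerivAt_of_tendsto' hd hint hlim]
  unfold Ak
  simp only [Complex.ofReal_one, one_mul]
  ring

/-! ### The theta function at `1` -/

theorem qzn_pos {x y : ℝ} (hy : 0 < y) {n : ℕ} (hn : 1 ≤ n) {v : ℤ × ℤ} (hv : v ≠ 0) :
    0 < qz x y v / n := by
  have hn0 : (0 : ℝ) < n := by exact_mod_cast hn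
  refine div_pos ?_ hn0
  unfold qz
  apply div_pos _ (by positivity)
  by_cases h : v.2 = 0
  · have h1 : v.1 ≠ 0 := fun h1 => hv (Prod.ext h1 h)
    have h2 : (v.1 : ℝ) ≠ 0 := by exact_mod_cast h1
    rw [h]
    simp only [Int.cast_zero, zero_mul, add_zero]
    positivity
  · have h2 : (v.2 : ℝ) ≠ 0 := by exact_mod_cast h
    have h3 : (0 : ℝ) < ((v.2 : ℝ) * y) ^ 2 := by positivity
    have h4 : (0 : ℝ) ≤ ((v.1 : ℝ) + v.2 * x) ^ 2 := by positivity
    linarith

open Classical in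
/-- the derivatives of the terms -/
noncomputable def dthm (m : ℤ) (n : ℕ) (L : AddSubgroup (ℤ × ℤ)) (x y : ℝ) (v : ℤ × ℤ) (u : ℝ) :
    ℂ :=
  if v ∈ L ∧ v ≠ 0 then an x y v ^ m * ((u : ℂ) * ((qz x y v / n : ℝ) : ℂ)) ^ m.natAbs *
    Complex.exp (-(2 * π * u * ((qz x y v / n : ℝ) : ℂ))) *
      ((m.natAbs - 2 * π * (u * ((qz x y v / n : ℝ) : ℂ))) / u) else 0

theorem thm_deriv (m : ℤ) (n : ℕ) (L : AddSubgroup (ℤ × ℤ)) (x y : ℝ) (v : ℤ × ℤ) {u : ℝ}
    (hu : 0 < u) :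
    HasDerivAt (fun u : ℝ => thm m n L x y (u : ℂ) v) (dthm m n L x y v u) u := by
  classical
  unfold thm dthm
  split_ifs with h
  · set q : ℝ := qz x y v / n with hq
    set M : ℕ := m.natAbs with hM
    have hz : (u : ℂ) ≠ 0 := by exact_mod_cast hu.ne'
    have hA : HasDerivAt (fun u : ℂ => u * (q : ℂ)) (q : ℂ) (u : ℂ) := by
      simpa using (hasDerivAt_id (u : ℂ)).mul_const (q : ℂ)
    have h3 : HasDerivAt (fun z : ℂ => (z * (q : ℂ)) ^ M) ((M : ℂ) * (u * q) ^ M / u) (u : ℂ) := by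
      have h4 := hA.pow M
      have h5 : (M : ℂ) * (u * q) ^ (M - 1) * q = (M : ℂ) * (u * q) ^ M / u := by
        rcases M with _ | M
        · simp
        · rw [Nat.add_sub_cancel, pow_succ]
          field_simp
      rw [← h5]
      exact h4
    have h6 : HasDerivAt (fun z : ℂ => Complex.exp (-(2 * π * z * (q : ℂ))))
        (Complex.exp (-(2 * π * u * (q : ℂ))) * (-(2 * π * 1 * q))) (u : ℂ) :=
      ((((hasDerivAt_id (u : ℂ)).const_mul (2 * (π : ℂ))).mul_const (q : ℂ)).neg).cexp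
    have h7 := ((h3.const_mul (an x y v ^ m)).mul h6).comp_ofReal
    have h8 : an x y v ^ m * ((u : ℂ) * q) ^ M * Complex.exp (-(2 * π * u * (q : ℂ))) *
        ((M - 2 * π * (u * (q : ℂ))) / u) =
        an x y v ^ m * ((M : ℂ) * (u * q) ^ M / u) * Complex.exp (-(2 * π * u * (q : ℂ))) +
        an x y v ^ m * ((u : ℂ) * q) ^ M *
          (Complex.exp (-(2 * π * u * (q : ℂ))) * (-(2 * π * 1 * q))) := by
      field_simp
      ring
    rw [h8]
    exact h7
  · exact hasDerivAt_const _ _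

theorem norm_dthm_le (m : ℤ) (n : ℕ) (L : AddSubgroup (ℤ × ℤ)) (x y : ℝ) (hn : 1 ≤ n) (hy : 0 < y)
    (v : ℤ × ℤ) {u : ℝ} (hu : u ∈ Ioo (1 / 2 : ℝ) 2) :
    ‖dthm m n L x y v u‖ ≤ 2 * 8 ^ m.natAbs * (m.natAbs + 8) *
      ‖thm m n L x y ((1 / 4 : ℝ) : ℂ) v‖ := by
  classical
  unfold thm dthm
  split_ifs with h
  · set q : ℝ := qz x y v / n with hq
    set M : ℕ := m.natAbs with hM
    have hq0 : 0 < q := qzn_pos hy hn h.2
    have hM0 : (0 : ℝ) ≤ M := Nat.cast_nonneg M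
    have hp1 := Real.pi_gt_three
    have hu0 : 0 < u := by have := hu.1; linarith
    have e1 : ‖((u : ℂ) * q) ^ M‖ = (u * q) ^ M := by
      rw [norm_pow, norm_mul, Complex.norm_real, Complex.norm_real, Real.norm_eq_abs,
        Real.norm_eq_abs, abs_of_pos hu0, abs_of_pos hq0]
    have e2 : ‖(((1 / 4 : ℝ) : ℂ) * q) ^ M‖ = (1 / 4 * q) ^ M := by
      rw [norm_pow, norm_mul, Complex.norm_real, Complex.norm_real, Real.norm_eq_abs,
        Real.norm_eq_abs, abs_of_pos (by norm_num), abs_of_pos hq0]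
    have e3 : ∀ a : ℝ, ‖Complex.exp (-(2 * π * (a : ℂ) * (q : ℂ)))‖ =
        Real.exp (-(2 * π * (a * q))) := by
      intro a
      have h1 : (2 * π * (a : ℂ) * (q : ℂ)) = 2 * π * ((a * q : ℝ) : ℂ) := by push_cast; ring
      rw [h1, norm_expr]
    have e4 : ‖((M : ℂ) - 2 * π * (u * (q : ℂ))) / u‖ ≤ 2 * (M + 4 * π * q) := by
      have h1 : ((M : ℂ) - 2 * π * (u * (q : ℂ))) / u =
          (((M - 2 * π * (u * q)) / u : ℝ) : ℂ) := by push_cast; ring
      rw [h1, Complex.norm_real, Real.norm_eq_abs, abs_div, abs_of_pos hu0, div_le_iff₀ hu0]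
      have h2 : 0 ≤ 2 * π * (u * q) := by positivity
      have h3 : 2 * π * (u * q) ≤ 4 * π * q := by
        have := mul_le_mul_of_nonneg_left hu.2.le (by positivity : 0 ≤ 2 * π * q)
        nlinarith
      have h4 : 0 ≤ (M : ℝ) + 4 * π * q := by positivity
      have h5 : |(M : ℝ) - 2 * π * (u * q)| ≤ M + 4 * π * q := by
        rw [abs_le]
        constructor <;> linarith
      have h6 : 1 ≤ 2 * u := by have := hu.1; linarith
      nlinarith
    rw [norm_mul, norm_mul, norm_mul, norm_mul, norm_mul, e1, e2, e3, e3]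
    have e5 : (u * q) ^ M ≤ 8 ^ M * (1 / 4 * q) ^ M := by
      rw [← mul_pow]
      refine pow_le_pow_left₀ (by positivity) ?_ M
      have := mul_le_mul_of_nonneg_right hu.2.le hq0.le
      linarith
    have e6 : Real.exp (-(2 * π * (u * q))) ≤
        Real.exp (-(π * q / 2)) * Real.exp (-(2 * π * (1 / 4 * q))) := by
      rw [← Real.exp_add]
      refine Real.exp_le_exp.2 ?_
      have := mul_le_mul_of_nonneg_right hu.1.le (by positivity : 0 ≤ 2 * π * q)
      nlinarith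
    have e7 : (M + 4 * π * q) * Real.exp (-(π * q / 2)) ≤ M + 8 := by
      have hpq : 0 ≤ π * q / 2 := by positivity
      have h1 : Real.exp (-(π * q / 2)) ≤ 1 := Real.exp_le_one_iff.2 (by linarith)
      have h2 : π * q / 2 * Real.exp (-(π * q / 2)) ≤ 1 := by
        have h3 := Real.add_one_le_exp (π * q / 2)
        have h4 : π * q / 2 ≤ Real.exp (π * q / 2) := by linarith
        have h5 := mul_le_mul_of_nonneg_right h4 (Real.exp_pos (-(π * q / 2))).le
        rw [← Real.exp_add, add_neg_cancel, Real.exp_zero] at h5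
        exact h5
      have h6 := mul_le_mul_of_nonneg_left h1 hM0
      nlinarith
    have e8 : (u * q) ^ M * Real.exp (-(2 * π * (u * q))) ≤
        8 ^ M * (1 / 4 * q) ^ M *
          (Real.exp (-(π * q / 2)) * Real.exp (-(2 * π * (1 / 4 * q)))) :=
      mul_le_mul e5 e6 (Real.exp_pos _).le (by positivity)
    have e9 : (u * q) ^ M * Real.exp (-(2 * π * (u * q))) *
        ‖((M : ℂ) - 2 * π * (u * (q : ℂ))) / u‖ ≤
        (8 ^ M * (1 / 4 * q) ^ M *
          (Real.exp (-(π * q / 2)) * Real.exp (-(2 * π * (1 / 4 * q))))) *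
          (2 * (M + 4 * π * q)) := mul_le_mul e8 e4 (norm_nonneg _) (by positivity)
    have e10 : (8 ^ M * (1 / 4 * q) ^ M *
          (Real.exp (-(π * q / 2)) * Real.exp (-(2 * π * (1 / 4 * q))))) *
          (2 * (M + 4 * π * q)) = (2 * 8 ^ M * ((1 / 4 * q) ^ M *
            Real.exp (-(2 * π * (1 / 4 * q))))) * ((M + 4 * π * q) * Real.exp (-(π * q / 2))) := by
      ring
    rw [e10] at e9
    have e11 := e9.trans (mul_le_mul_of_nonneg_left e7 (by positivity))
    have e12 := mul_le_mul_of_nonneg_left e11 (norm_nonneg (an (x : ℂ) y v ^ m))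
    refine le_trans (le_of_eq (by ring)) (e12.trans (le_of_eq (by ring)))
  · simp

theorem pf_EZ0 (hTHL : T_THLm) : T_EZ0 := by
  classical
  intro m n L x y hm hn hL hy
  have hS := fun (u : ℝ) (hu : 0 < u) => (hTHL m n L x y u hm hn hL hy hu).1
  have hF := fun (u : ℝ) (hu : 0 < u) => (hTHL m n L x y u hm hn hL hy hu).2
  have hS4 : Summable (fun v => 2 * 8 ^ m.natAbs * (m.natAbs + 8) *
      ‖thm m n L x y ((1 / 4 : ℝ) : ℂ) v‖) := (hS (1 / 4) (by norm_num)).mul_left _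
  have h1mem : (1 : ℝ) ∈ Ioo (1 / 2 : ℝ) 2 := by constructor <;> norm_num
  have hS1 : Summable (fun v => thm m n L x y ((1 : ℝ) : ℂ) v) := (hS 1 one_pos).of_norm
  have hdS : Summable (fun v => dthm m n L x y v 1) :=
    Summable.of_norm_bounded hS4 (fun v => norm_dthm_le m n L x y hn hy v h1mem)
  have hD : HasDerivAt (fun u : ℝ => ∑' v : ℤ × ℤ, thm m n L x y (u : ℂ) v)
      (∑' v : ℤ × ℤ, dthm m n L x y v 1) 1 := by
    refine hasDerivAt_tsum_of_isPreconnected hS4 isOpen_Ioo isPreconnected_Ioo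
      (fun v u hu => ?_) (fun v u hu => ?_) h1mem hS1 h1mem
    · exact thm_deriv m n L x y v (by have := hu.1; linarith)
    · exact norm_dthm_le m n L x y hn hy v hu
  -- the functional equation gives the derivative at `1`
  set T1 : ℂ := ∑' v : ℤ × ℤ, thm m n L x y ((1 : ℝ) : ℂ) v with hT1
  set D1 : ℂ := ∑' v : ℤ × ℤ, dthm m n L x y v 1 with hD1
  have hinv : HasDerivAt (fun u : ℝ => u⁻¹) (-((1 : ℝ) ^ 2)⁻¹) 1 := hasDerivAt_inv one_ne_zero
  have hD' : HasDerivAt (fun u : ℝ => ∑' v : ℤ × ℤ, thm m n L x y (u : ℂ) v) D1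
      ((1 : ℝ)⁻¹) := by rw [inv_one]; exact hD
  have hl : HasDerivAt (fun u : ℝ => ∑' v : ℤ × ℤ, thm m n L x y ((u⁻¹ : ℝ) : ℂ) v) (-D1) 1 := by
    have h2 := HasDerivAt.scomp (1 : ℝ) hD' hinv
    have h3 : (-((1 : ℝ) ^ 2)⁻¹) • D1 = -D1 := by simp
    rw [h3] at h2
    exact h2
  have hr : HasDerivAt (fun u : ℝ => (u : ℂ) * ∑' v : ℤ × ℤ, thm m n L x y (u : ℂ) v)
      (1 * T1 + ((1 : ℝ) : ℂ) * D1) 1 := by
    have h2 : HasDerivAt (fun u : ℝ => (u : ℂ)) 1 1 := Complex.ofRealCLM.hasDerivAt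
    exact h2.mul hD
  have heq : (fun u : ℝ => ∑' v : ℤ × ℤ, thm m n L x y ((u⁻¹ : ℝ) : ℂ) v) =ᶠ[𝓝 1]
      (fun u : ℝ => (u : ℂ) * ∑' v : ℤ × ℤ, thm m n L x y (u : ℂ) v) := by
    filter_upwards [Ioi_mem_nhds (zero_lt_one : (0 : ℝ) < 1)] with u hu
    exact hF u hu
  have hkey : -D1 = 1 * T1 + ((1 : ℝ) : ℂ) * D1 := hl.unique (hr.congr_of_eventuallyEq heq)
  have hkey2 : T1 + 2 * D1 = 0 := by
    rw [Complex.ofReal_one, one_mul, one_mul] at hkey
    linear_combination -hkey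
  -- the sum at `s = 0`
  have hterm : ∀ v : ℤ × ℤ, (if v ∈ L ∧ v ≠ 0 then
      an x y v ^ m * Kmc m.natAbs 1 0 ((qz x y v / n : ℝ) : ℂ) else 0) =
      -(thm m n L x y ((1 : ℝ) : ℂ) v + 2 * dthm m n L x y v 1) := by
    intro v
    unfold thm dthm
    split_ifs with h
    · rw [Kmc_zero m.natAbs (qzn_pos hy hn h.2)]
      simp only [Complex.ofReal_one, one_mul, mul_one, div_one]
      ring
    · simp
  unfold Em
  rw [tsum_congr hterm, tsum_neg, (hS1.add (hdS.mul_left 2)).hasSum.tsum_eq.symm.symm]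
  rw [Summable.tsum_add hS1 (hdS.mul_left 2), tsum_mul_left, hkey2, neg_zero]

end Pool.Agent.H23.FC
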