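import Pool.Agent.H89.FC.Targets

/-!
# FM COMPLETE: auxiliary targets for the kernel of weight `2 m`
-/

set_option autoImplicit false

open MeasureTheory Set Filter
open scoped Real

namespace Pool.Agent.H23.FC

open Pool.Agent.H89.FM Pool.Agent.H89.FC

/-- the size of the kernel without the exponential factor: `cG m t = cB m t * exp (- t θ)` -/
noncomputable def cB (m : ℕ) (t : ℝ) : ℝ :=
  (m.factorial : ℝ) / (2 * π) ^ m * (Real.sqrt (((m : ℝ) + 1) ^ 2 + t ^ 2) / (m + 1)) ^ (m + 1)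

/-- `cG` and `cB` -/
theorem cG_eq (m : ℕ) (t : ℝ) :
    cG m t = cB m t * Real.exp (-(t * Real.arctan (t / (m + 1)))) := rfl

/-- one half of the kernel -/
noncomputable def kfm (m : ℕ) (τ s : ℂ) (r : ℝ) : ℂ :=
  ∫ u in Ioi (1 : ℝ), phm m (τ * u * r) * (τ * u) ^ s / u

/-- (PHB) the bound of the test function near the ray. -/
def T_PHB : Prop :=
  ∃ (C : ℝ) (k : ℕ), 0 < C ∧ ∀ (m : ℕ) (t W : ℝ) (w : ℂ), 0 < W →
    ‖w‖ ≤ W * (1 + 1 / (10 * (1 + |t| + m))) →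
    W * ((m + 1) / Real.sqrt (((m : ℝ) + 1) ^ 2 + t ^ 2)) * (1 - 1 / (10 * (m + 1))) ≤ w.re →
    ‖phm m w‖ * (1 + W) ≤
      C * (1 + |t| + m) ^ k * cB m t * W * Real.exp (-(2 * W / (1 + |t| + m)))

/-- (KR1c) bounds for one half of the kernel. -/
def T_KR1c : Prop :=
  ∃ (C : ℝ) (k : ℕ), 0 < C ∧ ∀ (m : ℕ) (t : ℝ) (τ s : ℂ), (τ = tum m t ∨ τ = (tum m t)⁻¹) →
    |s.re - 1 / 2| ≤ 1 / 8 → ∀ r : ℝ, 0 < r →
    IntegrableOn (fun u : ℝ => phm m (τ * u * r) * (τ * u) ^ s / u) (Ioi 1) ∧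
    ‖kfm m τ s r‖ ≤ C * (1 + |t| + m) ^ k * cB m t * ‖τ ^ s‖ * r ^ (-s.re) *
      Real.exp (-(r / (1 + |t| + m))) ∧
    HasDerivAt (kfm m τ s) (-(s * kfm m τ s r + phm m (τ * r) * τ ^ s) / r) r ∧
    ‖phm m (τ * r)‖ ≤ C * (1 + |t| + m) ^ k * cB m t * r ^ (-s.re) *
      Real.exp (-(r / (1 + |t| + m)))

end Pool.Agent.H23.FC
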